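import Mathlib

/-!
# The reverse of an irreducible binomial
-/

set_option autoImplicit false
set_option maxHeartbeats 1000000

namespace Pool.Agent.Run7.h91.PX

open Polynomial

theorem reverse_bin {K : Type*} [Field K] (q : ℕ) (hq : 0 < q) (c : K) :
    (X ^ q + C c : K[X]).reverse = 1 + C c * X ^ q := by
  rw [reverse, natDegree_X_pow_add_C, reflect_add, reflect_C]
  congr 1
  have := reflect_monomial q q (R := K)
  rw [this, revAt_le le_rfl]
  simp

/-- the reverse of an irreducible binomial -/
theorem irr_inv {K : Type*} [Field K] (q : ℕ) (hq : 0 < q) (c : K) (hc : c ≠ 0)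
    (h : Irreducible (X ^ q + C c : K[X])) : Irreducible (X ^ q + C c⁻¹ : K[X]) := by
  have hci : c⁻¹ ≠ 0 := inv_ne_zero hc
  refine ⟨?_, ?_⟩
  · intro hu
    have := natDegree_eq_zero_of_isUnit hu
    rw [natDegree_X_pow_add_C] at this
    omega
  · intro a b hab
    have h1 := congrArg reverse hab
    rw [reverse_bin q hq, reverse_mul_of_domain] at h1
    have h2 : (1 + C c⁻¹ * X ^ q : K[X]) = C c⁻¹ * (X ^ q + C c) := by
      rw [mul_add, ← C_mul, inv_mul_cancel₀ hc, C_1]
      ring
    have h3 : Irreducible (C c⁻¹ * (X ^ q + C c) : K[X]) :=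
      (irreducible_isUnit_mul (isUnit_C.2 hci.isUnit)).2 h
    rw [← h2, h1] at h3
    have h0 : (a * b).coeff 0 ≠ 0 := by
      rw [← hab, coeff_add, coeff_X_pow, coeff_C_zero, if_neg hq.ne]
      simpa using hc
    rw [mul_coeff_zero] at h0
    have key : ∀ f : K[X], f.coeff 0 ≠ 0 → IsUnit f.reverse → IsUnit f := by
      intro f hf hu
      have h4 := natDegree_eq_zero_of_isUnit hu
      rw [reverse_natDegree, natTrailingDegree_eq_zero.2 (Or.inr hf), Nat.sub_zero] at h4
      rw [eq_C_of_natDegree_eq_zero h4]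
      exact isUnit_C.2 hf.isUnit
    rcases h3.isUnit_or_isUnit rfl with h5 | h5
    · exact Or.inl (key a (left_ne_zero_of_mul h0) h5)
    · exact Or.inr (key b (right_ne_zero_of_mul h0) h5)

end Pool.Agent.Run7.h91.PX
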