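import Pool.Agent.Run7.h370.Pell
import Pool.Agent.N449.SR.Final3
import Pool.Agent.Run7.h91.PX.Irr

/-!
# Common divisors of sparse numbers and of `8 d ^ 2 + 1 = 64 b ^ 2 + 9`
-/

set_option autoImplicit false
set_option maxHeartbeats 1000000

namespace Pool.Agent.Run7.h91.PX

open Polynomial Finset QuadraticAlgebra Pool.Agent.N449 Pool.Agent.N449.SQ Run7.h370

/-- the unit `(1 + √2) ^ (4 m)` -/
noncomputable abbrev W (m : ℕ) : R 2 := w 2 ((4 * m : ℕ) : ℤ)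

/-- `1 + 2 w` -/
noncomputable def bet (m : ℕ) : R 2 := 1 + 2 * W m

theorem star_W (m : ℕ) : star (W m) = w 2 (-((4 * m : ℕ) : ℤ)) := by
  have h := star_w 2 (4 * m)
  rw [Even.neg_one_pow ⟨2 * m, by ring⟩, one_mul] at h
  exact h

theorem W_mul (m : ℕ) : W m * star (W m) = 1 := by
  rw [star_W, ← w_add]; simp [w_zero]

theorem star_bet (m : ℕ) : star (bet m) = 1 + 2 * star (W m) := by
  rw [bet, star_add, star_mul', star_one]
  congr 2

theorem three_eq (m : ℕ) : (3 : R 2) = 2 * W m * star (bet m) - bet m := by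
  rw [star_bet, bet]
  linear_combination (-4 : R 2) * W_mul m

theorem bet_mul (m : ℕ) (d : ℤ) (hd : 2 * d = V 2 (2 * m)) :
    bet m * star (bet m) = ((8 * d ^ 2 + 1 : ℤ) : R 2) := by
  have hsum : w 2 ((2 * m : ℕ) : ℤ) + w 2 (-((2 * m : ℕ) : ℤ)) = ((2 * d : ℤ) : R 2) := by
    have h := w_add_star 2 (2 * m)
    rw [star_w, Even.neg_one_pow (even_two_mul m), one_mul] at h
    rw [hd]
    exact h
  have e1 : W m = w 2 ((2 * m : ℕ) : ℤ) * w 2 ((2 * m : ℕ) : ℤ) := by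
    rw [W, ← w_add]; congr 1; push_cast; ring
  have e2 : star (W m) = w 2 (-((2 * m : ℕ) : ℤ)) * w 2 (-((2 * m : ℕ) : ℤ)) := by
    rw [star_W, ← w_add]; congr 1; push_cast; ring
  have e3 : w 2 ((2 * m : ℕ) : ℤ) * w 2 (-((2 * m : ℕ) : ℤ)) = 1 := by
    rw [← w_add]; simp [w_zero]
  have e4 : (w 2 ((2 * m : ℕ) : ℤ) + w 2 (-((2 * m : ℕ) : ℤ))) ^ 2 = ((2 * d : ℤ) : R 2) ^ 2 := by
    rw [hsum]
  have e5 : ((8 * d ^ 2 + 1 : ℤ) : R 2) = 2 * ((2 * d : ℤ) : R 2) ^ 2 + 1 := by push_cast; ring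
  rw [star_bet, bet, e5]
  linear_combination 4 * W_mul m + 2 * e1 + 2 * e2 + 2 * e4 - 4 * e3

theorem irr0 (m q : ℕ) (hq : 0 < q) :
    Irreducible (X ^ q - C (SR.inc (-2 * W m)) : SR.K[X]) := by
  have h0 : (2 * SR.inc (W m) : SR.K) ≠ 0 := by
    intro h
    have h1 : SR.inc (2 * W m) = 0 := by
      rw [map_mul, map_ofNat, h]
    have h2 : (2 * W m : R 2) = 0 := SR.inc_inj (by rw [h1, map_zero])
    have h3 := congrArg (s₁ 2) h2
    rw [map_mul, map_ofNat, s₁_w, map_zero] at h3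
    have := zpow_pos (eps_pos 2) ((4 * m : ℕ) : ℤ)
    linarith
  have h1 := SR.irr (m : ℤ) q hq (2 * SR.inc (W m))⁻¹ (by
    rw [show (4 * (m : ℤ)) = ((4 * m : ℕ) : ℤ) by push_cast; ring]
    have : (2 * (2 * SR.inc (W m))⁻¹ * SR.inc (W m) : SR.K) =
      (2 * SR.inc (W m)) * (2 * SR.inc (W m))⁻¹ := by ring
    rw [this, mul_inv_cancel₀ h0])
  have h2 := irr_inv q hq _ (inv_ne_zero h0) h1
  rw [inv_inv] at h2
  convert h2 using 1
  rw [map_mul, map_neg, map_ofNat, neg_mul, Polynomial.C_neg, sub_neg_eq_add]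

theorem term_le (lam E X B : ℝ) (q A ρ m : ℕ) (hq : 0 < q) (hlam : 0 < lam) (hX : 0 ≤ X)
    (hXq : X ^ q = 2 * lam ^ (4 * m : ℤ)) (hB0 : 0 ≤ B)
    (hBq : B ^ q = 4 ^ A * E ^ ρ * lam ^ (4 * m * A : ℤ)) (hE1 : lam ≤ E) (hE2 : lam⁻¹ ≤ E)
    (hE : 1 ≤ E) (i r α : ℤ) (h : q * i = r + 4 * m * α) (hα : |α| ≤ A) (hr : |r| ≤ ρ) :
    lam ^ i * X ^ (A - α).toNat ≤ B := by
  have hα' := abs_le.1 hα
  refine (pow_le_pow_iff_left₀ (by positivity) hB0 hq.ne').1 ?_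
  obtain ⟨n, hn⟩ : ∃ n : ℕ, n = (A - α).toNat := ⟨_, rfl⟩
  have hnZ : (n : ℤ) = A - α := by rw [hn, Int.toNat_of_nonneg (by omega)]
  rw [← hn, mul_pow, ← pow_mul, mul_comm n q, pow_mul, hXq, mul_pow, hBq]
  have e1 : (lam ^ i) ^ q * (2 ^ n * (lam ^ (4 * m : ℤ)) ^ n) =
      2 ^ n * (lam ^ r * lam ^ (4 * m * A : ℤ)) := by
    have : (lam ^ i) ^ q * (lam ^ (4 * m : ℤ)) ^ n = lam ^ r * lam ^ (4 * m * A : ℤ) := by
      rw [← zpow_natCast, ← zpow_natCast, ← zpow_mul, ← zpow_mul, ← zpow_add₀ hlam.ne',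
        ← zpow_add₀ hlam.ne', hnZ]
      congr 1
      linear_combination h
    rw [← this]; ring
  rw [e1, mul_assoc ((4 : ℝ) ^ A)]
  have h2n : (2 : ℝ) ^ n ≤ 4 ^ A := by
    have : (4 : ℝ) ^ A = 2 ^ (2 * A) := by rw [pow_mul]; norm_num
    rw [this]
    exact pow_le_pow_right₀ (by norm_num) (by omega)
  have hr' := abs_le.1 hr
  have hlr : lam ^ r ≤ E ^ ρ := by
    obtain ⟨k, hk | hk⟩ := Int.eq_nat_or_neg r
    · rw [hk, zpow_natCast]
      refine (pow_le_pow_left₀ hlam.le hE1 _).trans (pow_le_pow_right₀ hE (by omega))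
    · rw [hk, zpow_neg, zpow_natCast, ← inv_pow]
      refine (pow_le_pow_left₀ (by positivity) hE2 _).trans (pow_le_pow_right₀ hE (by omega))
  refine mul_le_mul h2n ?_ (by positivity) (by positivity)
  exact mul_le_mul_of_nonneg_right hlr (by positivity)

section

variable (m q A ρ : ℕ) (S : Finset ℕ) (c : ℕ → R 2) (α r : ℕ → ℤ)

/-- the sparse polynomial -/
noncomputable def PP : (R 2)[X] :=
  ∑ i ∈ S, (C (c i * w 2 i) * X ^ ((A : ℤ) - α i).toNat -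
    C (star (c i * w 2 i)) * X ^ ((A : ℤ) - -α i).toNat)

theorem PP_one (N : ℤ) (hN : N = ∑ i ∈ S, (c i * w 2 i).im) :
    (PP A S c α).eval 1 = (N : R 2) * dl 2 := by
  rw [PP, eval_finsetSum, hN]
  push_cast
  rw [Finset.sum_mul]
  refine Finset.sum_congr rfl fun i _ => ?_
  rw [← sub_star' 2]
  simp

theorem emb_bound (s s' : R 2 →+* ℝ) (lam E : ℝ) (hq : 0 < q) (hlam : 0 < lam) (hE1 : lam ≤ E)
    (hE2 : lam⁻¹ ≤ E) (hE : 1 ≤ E) (hsw : ∀ x : ℤ, |s (w 2 x)| = lam ^ x)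
    (hss : ∀ z, s (star z) = s' z) (hsw' : ∀ x : ℤ, |s' (w 2 x)| = lam ^ (-x))
    (hα : ∀ i ∈ S, (q : ℤ) * i = r i + 4 * m * α i) (hαA : ∀ i ∈ S, |α i| ≤ A)
    (hρ : ∀ i ∈ S, |r i| ≤ ρ) :
    |s (resultant (X ^ q - C (-2 * W m)) (PP A S c α))| ≤
      4 ^ A * E ^ ρ * lam ^ (4 * m * A : ℤ) * (∑ i ∈ S, (|s (c i)| + |s' (c i)|)) ^ q := by
  have hT : 0 ≤ (4 : ℝ) ^ A * E ^ ρ * lam ^ (4 * m * A : ℤ) := by
    have : 0 ≤ E := by linarith
    positivity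
  obtain ⟨B, hB0, hBq⟩ : ∃ B : ℝ, 0 ≤ B ∧ B ^ q = 4 ^ A * E ^ ρ * lam ^ (4 * m * A : ℤ) :=
    ⟨_, Real.rpow_nonneg hT _, Real.rpow_inv_natCast_pow hT hq.ne'⟩
  have hb := res_bound (Complex.ofRealHom.comp s) q hq (-2 * W m) (PP A S c α)
    (B * ∑ i ∈ S, (|s (c i)| + |s' (c i)|)) ?_
  · rw [mul_pow, hBq] at hb
    refine le_trans (le_of_eq ?_) hb
    simp
  · intro x hx
    have hx1 : ‖x‖ ^ q = 2 * lam ^ (4 * m : ℤ) := by
      rw [← norm_pow, hx]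
      have e : ‖(Complex.ofRealHom.comp s) (-2 * W m)‖ = |s (-2 * W m)| := by simp
      rw [e, map_mul, abs_mul, W, hsw, map_neg, map_ofNat, abs_neg, abs_of_pos (by norm_num)]
      push_cast
      rfl
    rw [PP, eval₂_finsetSum]
    refine (norm_sum_le _ _).trans ?_
    rw [Finset.mul_sum]
    refine Finset.sum_le_sum fun i hi => ?_
    have t1 := term_le lam E ‖x‖ B q A ρ m hq hlam (norm_nonneg _) hx1 hB0 hBq hE1 hE2 hE i (r i)
      (α i) (hα i hi) (hαA i hi) (hρ i hi)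
    have t2 := term_le lam E ‖x‖ B q A ρ m hq hlam (norm_nonneg _) hx1 hB0 hBq hE1 hE2 hE (-i)
      (-(r i)) (-(α i)) (by linear_combination -hα i hi) (by rw [abs_neg]; exact hαA i hi)
      (by rw [abs_neg]; exact hρ i hi)
    rw [eval₂_sub, eval₂_mul, eval₂_mul, eval₂_C, eval₂_C, eval₂_pow, eval₂_pow, eval₂_X]
    refine (norm_sub_le _ _).trans ?_
    rw [norm_mul, norm_mul, norm_pow, norm_pow]
    have e1 : ‖(Complex.ofRealHom.comp s) (c i * w 2 i)‖ = |s (c i)| * lam ^ (i : ℤ) := by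
      rw [← hsw, ← abs_mul, ← map_mul]; simp
    have e2 : ‖(Complex.ofRealHom.comp s) (star (c i * w 2 i))‖ = |s' (c i)| * lam ^ (-(i : ℤ)) := by
      rw [← hsw', ← abs_mul, ← map_mul, ← hss]; simp
    rw [e1, e2]
    have := mul_le_mul_of_nonneg_left t1 (abs_nonneg (s (c i)))
    have := mul_le_mul_of_nonneg_left t2 (abs_nonneg (s' (c i)))
    nlinarith

theorem main_alt (hq : 0 < q) (hα : ∀ i ∈ S, (q : ℤ) * i = r i + 4 * m * α i)
    (hαA : ∀ i ∈ S, |α i| ≤ A) (hρ : ∀ i ∈ S, |r i| ≤ ρ) (N g M : ℤ)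
    (hN : N = ∑ i ∈ S, (c i * w 2 i).im) (hM : bet m * star (bet m) = (M : R 2)) (hgN : g ∣ N)
    (hgM : g ∣ M) :
    M ∣ 24 * N ∨
      |(g : ℝ)| ≤ 16 ^ A * (2 * ∑ i ∈ S, hs 2 (c i)) ^ (2 * q) * eps 2 ^ (2 * ρ) := by
  have hdom := isDomain (a := 2) (by norm_num)
  have he0 := eps_pos 2
  have he1 := one_lt_eps (a := 2) (by norm_num)
  have hP1 := PP_one A S c α N hN
  have hg1 : (1 : R 2) - (-2 * W m) = bet m := by rw [bet]; ring
  have hdl2 : dl 2 * dl 2 = 8 := by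
    rw [dl_sq]; norm_num
  have hsd : star (dl 2) = -dl 2 := by
    ext
    · simp [dl]
    · simp [dl]
  by_cases hd : (X ^ q - C (-2 * W m)) ∣ PP A S c α
  · left
    obtain ⟨Q, hQ⟩ := hd
    have h1 := congrArg (eval 1) hQ
    rw [hP1, eval_mul, eval_sub, eval_pow, eval_X, eval_C, one_pow, hg1] at h1
    have h2 := congrArg star h1
    rw [star_mul', star_int, hsd, star_mul'] at h2
    apply int_dvd (a := 2)
    refine ⟨dl 2 * (2 * W m * Q.eval 1 + star (Q.eval 1)), ?_⟩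
    push_cast
    rw [← hM]
    have h3 := three_eq m
    linear_combination (-3 * (N : R 2)) * hdl2 + (N : R 2) * dl 2 * dl 2 * h3 +
      (2 * W m * star (bet m) * dl 2) * h1 + bet m * dl 2 * h2
  · right
    have hν0 := res_ne_zero SR.inc SR.inc_inj q hq (-2 * W m) (irr0 m q hq) (PP A S c α) hd
    obtain ⟨ν, hν⟩ : ∃ ν : R 2, ν = resultant (X ^ q - C (-2 * W m)) (PP A S c α) := ⟨_, rfl⟩
    rw [← hν] at hν0
    have hmem : ν ∈ Ideal.span {bet m, (g : R 2)} := by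
      rw [← Ideal.Quotient.eq_zero_iff_mem, hν]
      refine res_mem (Ideal.Quotient.mk _) q hq (-2 * W m) (PP A S c α) 1 ?_ ?_
      · rw [one_pow, ← sub_eq_zero, ← map_one (Ideal.Quotient.mk _), ← map_sub, hg1,
          Ideal.Quotient.eq_zero_iff_mem]
        exact Ideal.subset_span (by simp)
      · rw [← map_one (Ideal.Quotient.mk (Ideal.span {bet m, (g : R 2)})), eval₂_at_apply, hP1,
          Ideal.Quotient.eq_zero_iff_mem]
        obtain ⟨k, hk⟩ := hgN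
        refine Ideal.mul_mem_right _ _ ?_
        rw [hk]
        push_cast
        exact Ideal.mul_mem_right _ _ (Ideal.subset_span (by simp))
    have h2 : g ∣ norm ν := by
      apply int_dvd (a := 2)
      rw [← mul_star_eq]
      obtain ⟨x, y, hxy⟩ := Ideal.mem_span_pair.1 hmem
      obtain ⟨k, hk⟩ := hgM
      rw [← hxy, star_add, star_mul', star_mul', star_int]
      refine ⟨x * star x * k + x * bet m * star y + y * star x * star (bet m) + g * y * star y, ?_⟩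
      have h3 : bet m * star (bet m) = ((g : R 2) * k) := by rw [hM, hk]; push_cast; ring
      linear_combination (x * star x) * h3
    have h3 : norm ν ≠ 0 := norm_ne_zero (by norm_num) hν0
    have h4 : |(g : ℝ)| ≤ |((norm ν : ℤ) : ℝ)| := by
      have := Int.natAbs_le_of_dvd_ne_zero h2 h3
      have h5 : |g| ≤ |norm ν| := by rw [Int.abs_eq_natAbs, Int.abs_eq_natAbs]; exact_mod_cast this
      exact_mod_cast h5
    rw [abs_norm_eq, hν] at h4
    refine h4.trans ?_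
    have hei : (eps 2)⁻¹ ≤ 1 := inv_le_one_of_one_le₀ he1.le
    have b1 := emb_bound m q A ρ S c α r (s₁ 2) (s₂ 2) (eps 2) (eps 2) hq he0 le_rfl
      (hei.trans he1.le) he1.le (fun x => by rw [s₁_w, abs_of_pos (zpow_pos he0 _)])
      (fun z => s₁_star 2 z) (fun x => abs_s₂_w 2 x) hα hαA hρ
    have b2 := emb_bound m q A ρ S c α r (s₂ 2) (s₁ 2) (eps 2)⁻¹ (eps 2) hq (inv_pos.2 he0)
      (hei.trans he1.le) (by rw [inv_inv]) he1.le (fun x => by rw [abs_s₂_w, inv_zpow, zpow_neg])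
      (fun z => s₂_star 2 z)
      (fun x => by rw [s₁_w, abs_of_pos (zpow_pos he0 _), inv_zpow, zpow_neg, inv_inv]) hα hαA hρ
    have hT2 : ∑ i ∈ S, (|s₁ 2 (c i)| + |s₂ 2 (c i)|) ≤ 2 * ∑ i ∈ S, hs 2 (c i) := by
      rw [Finset.mul_sum]
      refine Finset.sum_le_sum fun i _ => ?_
      have h1 : |s₁ 2 (c i)| ≤ hs 2 (c i) := le_max_left _ _
      have h2 : |s₂ 2 (c i)| ≤ hs 2 (c i) := le_max_right _ _
      linarith
    have hT0 : 0 ≤ ∑ i ∈ S, (|s₁ 2 (c i)| + |s₂ 2 (c i)|) :=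
      Finset.sum_nonneg fun _ _ => by positivity
    have hT1 : ∑ i ∈ S, (|s₂ 2 (c i)| + |s₁ 2 (c i)|) = ∑ i ∈ S, (|s₁ 2 (c i)| + |s₂ 2 (c i)|) :=
      Finset.sum_congr rfl fun i _ => add_comm _ _
    rw [hT1] at b2
    have hb := mul_le_mul b1 b2 (abs_nonneg _) (by positivity)
    refine hb.trans ?_
    have e1 : eps 2 ^ (4 * m * A : ℤ) * (eps 2)⁻¹ ^ (4 * m * A : ℤ) = 1 := by
      rw [← mul_zpow, mul_inv_cancel₀ he0.ne', one_zpow]
    have e2 : (16 : ℝ) ^ A = 4 ^ A * 4 ^ A := by rw [← mul_pow]; norm_num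
    calc _ = 16 ^ A * (∑ i ∈ S, (|s₁ 2 (c i)| + |s₂ 2 (c i)|)) ^ (2 * q) * eps 2 ^ (2 * ρ) *
          (eps 2 ^ (4 * m * A : ℤ) * (eps 2)⁻¹ ^ (4 * m * A : ℤ)) := by
            rw [e2, two_mul q, pow_add, two_mul ρ, pow_add]; ring
      _ = 16 ^ A * (∑ i ∈ S, (|s₁ 2 (c i)| + |s₂ 2 (c i)|)) ^ (2 * q) * eps 2 ^ (2 * ρ) := by
            rw [e1, mul_one]
      _ ≤ _ := by
            refine mul_le_mul_of_nonneg_right ?_ (by positivity)
            exact mul_le_mul_of_nonneg_left (pow_le_pow_left₀ hT0 hT2 _) (by positivity)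

end

end Pool.Agent.Run7.h91.PX
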