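import Pool.Agent.Run7.h91.PX.Core

/-!
# Sparse multiples of divisors of `8 d ^ 2 + 1 = 64 b ^ 2 + 9`
-/

set_option autoImplicit false
set_option maxHeartbeats 1000000

namespace Pool.Agent.Run7.h91.PX

open Pool.Agent.N449.SQ QuadraticAlgebra Finset Run7.h370

theorem coords (m : ℕ) (b d : ℤ) (hbd : (d : ℝ) + b * √8 = (3 + √8) ^ m) :
    2 * d = V 2 (2 * m) ∧ 2 * b = U 2 (2 * m) := by
  have h2 : √(2 : ℝ) ^ 2 = 2 := Real.sq_sqrt (by norm_num)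
  have h8 : √(8 : ℝ) = 2 * √2 := by
    rw [show (8 : ℝ) = 2 ^ 2 * 2 by norm_num, Real.sqrt_mul (by positivity),
      Real.sqrt_sq (by norm_num)]
  refine pellCoord (2 * m) d (2 * b) ?_
  rw [h8] at hbd
  push_cast
  rw [pow_mul, show ((1 : ℝ) + √2) ^ 2 = 3 + 2 * √2 by linear_combination h2, ← hbd]
  ring

theorem pell_eq (m : ℕ) (b d : ℤ) (hbd : (d : ℝ) + b * √8 = (3 + √8) ^ m) :
    8 * d ^ 2 + 1 = 64 * b ^ 2 + 9 := by
  obtain ⟨h1, h2⟩ := coords m b d hbd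
  have e1 := w_add_star 2 (2 * m)
  have e2 := sub_star' 2 (w 2 ((2 * m : ℕ) : ℤ))
  rw [(w_re_im 2 (2 * m)).1] at e2
  have e3 : w 2 ((2 * m : ℕ) : ℤ) * star (w 2 ((2 * m : ℕ) : ℤ)) = 1 := by
    rw [star_w, Even.neg_one_pow (even_two_mul m), one_mul, ← w_add]
    simp [w_zero]
  have e4 := dl_sq 2
  have e5 : (((V 2 (2 * m)) ^ 2 - 8 * (U 2 (2 * m)) ^ 2 : ℤ) : R 2) = ((4 : ℤ) : R 2) := by
    push_cast
    push_cast at e4
    linear_combination 4 * e3 + (-(w 2 ((2 * m : ℕ) : ℤ) + star (w 2 ((2 * m : ℕ) : ℤ))) -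
      (V 2 (2 * m) : R 2)) * e1 + ((w 2 ((2 * m : ℕ) : ℤ) - star (w 2 ((2 * m : ℕ) : ℤ))) +
      (U 2 (2 * m) : R 2) * dl 2) * e2 + (U 2 (2 * m) : R 2) ^ 2 * e4
  have e6 := congrArg QuadraticAlgebra.re e5
  simp only [re_intCast, Int.cast_id] at e6
  rw [← h1, ← h2] at e6
  linarith

theorem sum_ge_one (S : Finset ℕ) (u u' : ℕ → ℤ)
    (hN : ∑ i ∈ S, (u i * U 2 i + u' i * U 2 (i + 1)) ≠ 0) :
    1 ≤ ∑ i ∈ S, (|(u i : ℝ)| + 3 * |(u' i : ℝ)|) := by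
  by_contra hcon
  apply hN
  have h0 : ∀ i ∈ S, u i = 0 ∧ u' i = 0 := by
    intro i hi
    have h1 : (|(u i : ℝ)| + 3 * |(u' i : ℝ)|) ≤ ∑ i ∈ S, (|(u i : ℝ)| + 3 * |(u' i : ℝ)|) :=
      Finset.single_le_sum (f := fun i => |(u i : ℝ)| + 3 * |(u' i : ℝ)|)
        (fun i _ => by positivity) hi
    have h2 : |(u i : ℝ)| < 1 := by
      have := abs_nonneg (u' i : ℝ)
      linarith
    have h3 : |(u' i : ℝ)| < 1 := by
      have := abs_nonneg (u i : ℝ)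
      linarith
    have h4 : |u i| < 1 := by exact_mod_cast h2
    have h5 : |u' i| < 1 := by exact_mod_cast h3
    rw [abs_lt] at h4 h5
    omega
  exact Finset.sum_eq_zero fun i hi => by rw [(h0 i hi).1, (h0 i hi).2]; ring

theorem pellMain8 (m : ℕ) (hm : 0 < m) (b d : ℤ) (hbd : (d : ℝ) + b * √8 = (3 + √8) ^ m) (L : ℕ)
    (S : Finset ℕ) (u u' : ℕ → ℤ) (t : ℕ) (hL : ∀ i ∈ S, i ≤ 4 * m * L) (ht : 0 < t)
    (hts : t ^ S.card < 4 * m)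
    (hnd : ¬ (8 * d ^ 2 + 1) ∣ 3 * ∑ i ∈ S, (u i * U 2 i + u' i * U 2 (i + 1))) (g : ℤ)
    (hg1 : g ∣ 8 * d ^ 2 + 1) (hg2 : g ∣ ∑ i ∈ S, (u i * U 2 i + u' i * U 2 (i + 1))) :
    |(g : ℝ)| ≤ (8 * 4 ^ L * ∑ i ∈ S, (|(u i : ℝ)| + 3 * |(u' i : ℝ)|)) ^ (2 * t ^ S.card) *
      (1 + √2) ^ (2 * (4 * m / t)) := by
  obtain ⟨q, r, hq0, hqt, hr, hρ⟩ := dirichlet (4 * m) t (by omega) ht S (fun i => (i : ℤ)) hts
  have hm1 : (1 : ℤ) ≤ m := by exact_mod_cast hm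
  have hq1 : (1 : ℤ) ≤ q := by exact_mod_cast hq0
  have hα : ∀ i, ∃ a : ℤ, i ∈ S → (q : ℤ) * i = r i + 4 * m * a := by
    intro i
    by_cases hi : i ∈ S
    · obtain ⟨a, ha⟩ := (hr i hi).dvd
      refine ⟨a, fun _ => ?_⟩
      push_cast at ha
      linarith
    · exact ⟨0, fun h => absurd h hi⟩
  choose α hα using hα
  have hρ4 : ∀ i ∈ S, |r i| ≤ 4 * m := by
    intro i hi
    have h1 := hρ i hi
    have h2 : ((4 * m / t : ℕ) : ℤ) ≤ 4 * m := by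
      exact_mod_cast Nat.div_le_self (4 * m) t
    exact h1.trans h2
  have hαA : ∀ i ∈ S, |α i| ≤ ((q * (L + 1) : ℕ) : ℤ) := by
    intro i hi
    have h1 := hα i hi
    have h2 := abs_le.1 (hρ4 i hi)
    have h3 : (i : ℤ) ≤ 4 * m * L := by exact_mod_cast hL i hi
    have h4 : (0 : ℤ) ≤ i := by positivity
    have h5 : (q : ℤ) * i ≤ 4 * m * (q * L) := by nlinarith
    have h6 : (0 : ℤ) ≤ q * i := by positivity
    have h7 : (4 * m : ℤ) * α i ≤ (4 * m) * (q * L + 1) := by linarith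
    have h8 : (4 * m : ℤ) * (-1) ≤ (4 * m) * α i := by linarith
    have h9 : α i ≤ q * L + 1 := le_of_mul_le_mul_left h7 (by linarith)
    have h10 : -1 ≤ α i := le_of_mul_le_mul_left h8 (by linarith)
    have h11 : (0 : ℤ) ≤ q * L := by positivity
    push_cast
    rw [abs_le]
    constructor <;> nlinarith
  have hN0 : ∑ i ∈ S, (u i * U 2 i + u' i * U 2 (i + 1)) ≠ 0 := by
    intro h0
    rw [h0, mul_zero] at hnd
    exact hnd (dvd_zero _)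
  have hW1 := sum_ge_one S u u' hN0
  set Wt : ℝ := ∑ i ∈ S, (|(u i : ℝ)| + 3 * |(u' i : ℝ)|) with hWt
  obtain ⟨N, hN⟩ : ∃ N : ℤ, N = ∑ i ∈ S, (u i * U 2 i + u' i * U 2 (i + 1)) := ⟨_, rfl⟩
  rw [← hN] at hg2 hnd
  have hN' : N = ∑ i ∈ S, ((⟨u i, u' i⟩ : R 2) * w 2 i).im := by
    rw [hN]
    exact Finset.sum_congr rfl fun i _ => by rw [mul_w_im]
  have hH : ∑ i ∈ S, hs 2 (⟨u i, u' i⟩ : R 2) ≤ Wt := by
    rw [hWt]
    refine Finset.sum_le_sum fun i _ => ?_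
    have := hs_two (u i) (u' i)
    push_cast at this
    exact this
  have hH0 : 0 ≤ ∑ i ∈ S, hs 2 (⟨u i, u' i⟩ : R 2) := Finset.sum_nonneg fun _ _ => hs_nonneg _ _
  have h1 := main_alt m q (q * (L + 1)) (4 * m / t) S (fun i => ⟨u i, u' i⟩) α r hq0 hα hαA hρ N g
    (8 * d ^ 2 + 1) hN' (bet_mul m d (coords m b d hbd).1) hg2 hg1
  rcases h1 with h2 | h2
  · exfalso
    apply hnd
    have h3 : IsCoprime (8 * d ^ 2 + 1) 8 := ⟨1, -d ^ 2, by ring⟩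
    rw [show (24 : ℤ) * N = 8 * (3 * N) by ring] at h2
    exact h3.dvd_of_dvd_mul_left h2
  · refine h2.trans ?_
    rw [eps_two]
    refine mul_le_mul_of_nonneg_right ?_ (by positivity)
    have e1 : (16 : ℝ) ^ (q * (L + 1)) = (4 * 4 ^ L) ^ (2 * q) := by
      rw [show (4 : ℝ) * 4 ^ L = 4 ^ (L + 1) by ring, ← pow_mul,
        show (16 : ℝ) = 4 ^ 2 by norm_num, ← pow_mul]
      congr 1
      ring
    rw [e1, ← mul_pow]
    have hL4 : (1 : ℝ) ≤ 4 ^ L := one_le_pow₀ (by norm_num)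
    calc (4 * 4 ^ L * (2 * ∑ i ∈ S, hs 2 (⟨u i, u' i⟩ : R 2))) ^ (2 * q)
        ≤ (8 * 4 ^ L * Wt) ^ (2 * q) := by
          refine pow_le_pow_left₀ (by positivity) ?_ _
          have : (4 : ℝ) ^ L * ∑ i ∈ S, hs 2 (⟨u i, u' i⟩ : R 2) ≤ 4 ^ L * Wt :=
            mul_le_mul_of_nonneg_left hH (by positivity)
          linarith
      _ ≤ _ := pow_le_pow_right₀ (by nlinarith) (by omega)

/-- size of the modulus -/
theorem lower8 (m : ℕ) (b d : ℤ) (hbd : (d : ℝ) + b * √8 = (3 + √8) ^ m) :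
    (1 + √2) ^ (4 * m) ≤ ((8 * d ^ 2 + 1 : ℤ) : ℝ) := by
  have h1 := bet_mul m d (coords m b d hbd).1
  have h2 := congrArg (s₁ 2) h1
  rw [star_bet, star_W, bet, W] at h2
  rw [map_mul, map_add, map_add, map_mul, map_mul, map_one, map_ofNat, s₁_w, s₁_w, eps_two] at h2
  have h3 : s₁ 2 (((8 * d ^ 2 + 1 : ℤ) : R 2)) = ((8 * d ^ 2 + 1 : ℤ) : ℝ) := map_intCast _ _
  rw [h3] at h2
  rw [← h2, zpow_neg, zpow_natCast]
  have hpos : (0 : ℝ) < (1 + √2) ^ (4 * m) := by positivity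
  have hinv : (0 : ℝ) < ((1 + √2) ^ (4 * m))⁻¹ := by positivity
  have hmul : (1 + √2) ^ (4 * m) * ((1 + √2) ^ (4 * m))⁻¹ = 1 := mul_inv_cancel₀ hpos.ne'
  nlinarith

end Pool.Agent.Run7.h91.PX
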